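import Pool.Agent.helper82.OG.Spec

set_option autoImplicit false

open Finset

namespace Pool.Agent.OG

open Pool.Agent.EP

open Classical in
theorem PAR_mem (J L : ℕ) (x : ℕ × ℕ) (hx : x ∈ PQ J L) :
    ∃ d ∈ Ioc 0 J, ∃ n ∈ (range (J * L / d ^ 2 + 1)).filter
      (fun n => Odd (Fintype.card (Nat.Partition n)) ∧ 1 ≤ n ∧ 24 * n - 1 ≤ J * L),
      ∃ e ∈ (24 * n - 1).divisors, (d * e, d * ((24 * n - 1) / e)) = x := by
  obtain ⟨j, M⟩ := x
  unfold PQ at hx
  rw [mem_filter, mem_product, mem_Ioc, mem_Ioc] at hx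
  obtain ⟨⟨⟨hj0, hjJ⟩, hM0, hML⟩, hne⟩ := hx
  simp only at hj0 hjJ hM0 hML hne
  unfold JG at hne
  obtain ⟨d, hd, hdne⟩ := Finset.exists_ne_zero_of_sum_ne_zero hne
  rw [mem_filter, Nat.mem_divisors] at hd
  obtain ⟨⟨hdj, _⟩, hdM⟩ := hd
  have hdM' : d ∣ M := by exact_mod_cast hdM
  obtain ⟨e, rfl⟩ := hdj
  obtain ⟨f, rfl⟩ := hdM'
  have hd0 : 0 < d := Nat.pos_of_mul_pos_right hj0 |> fun h => by
    rcases Nat.eq_zero_or_pos d with h0 | h0
    · subst h0; simp at hj0
    · exact h0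
  have he0 : 0 < e := by
    rcases Nat.eq_zero_or_pos e with h0 | h0
    · subst h0; simp at hj0
    · exact h0
  have hf0 : 0 < f := by
    rcases Nat.eq_zero_or_pos f with h0 | h0
    · subst h0; simp at hM0
    · exact h0
  have hdiv : ((d * e : ℕ) : ℤ) * ((d * f : ℕ) : ℤ) / (d : ℤ) ^ 2 = ((e * f : ℕ) : ℤ) := by
    have h1 : ((d * e : ℕ) : ℤ) * ((d * f : ℕ) : ℤ) = (d : ℤ) ^ 2 * ((e * f : ℕ) : ℤ) := by
      push_cast; ring
    rw [h1]
    exact Int.mul_ediv_cancel_left _ (by positivity)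
  rw [hdiv] at hdne
  unfold ac at hdne
  split_ifs at hdne with hc
  · obtain ⟨hmod, _⟩ := hc
    have hmod' : (e * f) % 24 = 23 := by
      have : ((e * f : ℕ) : ℤ) % 24 = (((e * f) % 24 : ℕ) : ℤ) := by norm_cast
      rw [this] at hmod
      exact_mod_cast hmod
    obtain ⟨n, hn⟩ : ∃ n, n = (e * f + 1) / 24 := ⟨_, rfl⟩
    have hefn : e * f = 24 * n - 1 := by omega
    have hn1 : 1 ≤ n := by omega
    have hton : (((e * f : ℕ) : ℤ) + 1) / 24 = (n : ℤ) := by
      have : ((e * f : ℕ) : ℤ) + 1 = 24 * (n : ℤ) := by omega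
      rw [this]
      exact Int.mul_ediv_cancel_left _ (by norm_num)
    rw [hton, Int.toNat_natCast] at hdne
    have hodd : Odd (Fintype.card (Nat.Partition n)) := by
      unfold pp at hdne
      rw [← Nat.not_even_iff_odd]
      intro hev
      exact hdne ((ZMod.natCast_eq_zero_iff_even).2 hev)
    have hJL : (d * e) * (d * f) ≤ J * L := Nat.mul_le_mul hjJ hML
    refine ⟨d, mem_Ioc.2 ⟨hd0, ?_⟩, n, ?_, e, ?_, ?_⟩
    · exact le_trans (Nat.le_mul_of_pos_right d he0) hjJ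
    · rw [mem_filter, mem_range]
      refine ⟨?_, hodd, hn1, ?_⟩
      · rw [Nat.lt_succ_iff, Nat.le_div_iff_mul_le (by positivity)]
        have h2 : n ≤ e * f := by omega
        calc n * d ^ 2 ≤ (e * f) * d ^ 2 := Nat.mul_le_mul_right _ h2
          _ = (d * e) * (d * f) := by ring
          _ ≤ J * L := hJL
      · rw [← hefn]
        have h3 : e * f ≤ (d * e) * (d * f) := by
          calc e * f = 1 * (e * f) := by ring
            _ ≤ (d ^ 2) * (e * f) := Nat.mul_le_mul_right _ (Nat.one_le_pow _ _ hd0)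
            _ = (d * e) * (d * f) := by ring
        exact le_trans h3 hJL
    · rw [Nat.mem_divisors]
      exact ⟨⟨f, hefn.symm⟩, by omega⟩
    · rw [← hefn, Nat.mul_div_cancel_left _ he0]
  · exact absurd rfl hdne

open Classical in
theorem PAR : PAR_stmt := by
  intro J L D hD
  have hsub : PQ J L ⊆ (Ioc 0 J).biUnion (fun d =>
      ((range (J * L / d ^ 2 + 1)).filter
        (fun n => Odd (Fintype.card (Nat.Partition n)) ∧ 1 ≤ n ∧ 24 * n - 1 ≤ J * L)).biUnion
        (fun n => (24 * n - 1).divisors.image (fun e => (d * e, d * ((24 * n - 1) / e))))) := by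
    intro x hx
    obtain ⟨d, hd, n, hn, e, he, hex⟩ := PAR_mem J L x hx
    rw [mem_biUnion]
    refine ⟨d, hd, ?_⟩
    rw [mem_biUnion]
    refine ⟨n, hn, ?_⟩
    rw [mem_image]
    exact ⟨e, he, hex⟩
  refine le_trans (card_le_card hsub) ?_
  refine le_trans card_biUnion_le ?_
  refine sum_le_sum ?_
  intro d _
  refine le_trans card_biUnion_le ?_
  have h1 : ∀ n ∈ (range (J * L / d ^ 2 + 1)).filter
      (fun n => Odd (Fintype.card (Nat.Partition n)) ∧ 1 ≤ n ∧ 24 * n - 1 ≤ J * L),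
      #((24 * n - 1).divisors.image (fun e => (d * e, d * ((24 * n - 1) / e)))) ≤ D := by
    intro n hn
    rw [mem_filter] at hn
    refine le_trans card_image_le ?_
    exact hD _ (by omega) hn.2.2.2
  refine le_trans (sum_le_card_nsmul _ _ D h1) ?_
  rw [smul_eq_mul, mul_comm]
  refine Nat.mul_le_mul_left D ?_
  unfold sO
  refine card_le_card ?_
  intro n hn
  rw [mem_filter] at hn ⊢
  exact ⟨hn.1, hn.2.1⟩

end Pool.Agent.OG
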